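import Pool.Agent.N508.Wh.Gauge

set_option autoImplicit false
set_option linter.unusedSectionVars false

/-! Consequences of the gauge theorem for the Whitehead group, and classes in `K₁`. -/

namespace Pool.Agent.N508.Wh

open Matrix TH57.Thr TH6.LF TH6.CX Pool.Agent.Y75.Th Pool.Agent.Y35.KC.TTm Pool.Agent.R719.DD
  Pool.Agent.R472.Grid

variable {Γ : Type} [Group Γ] {κ : Type} [Fintype κ] [DecidableEq κ]

/-- the integral matrix of an invertible matrix in gauge form is invertible -/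
theorem gau_unit (A : (Matrix κ κ (MonoidAlgebra ℤ Γ))ˣ) (h : Gau A.val) :
    ∃ (g h : κ → Γ) (M : (Matrix κ κ ℤ)ˣ), ∀ i j,
      A.val i j = MonoidAlgebra.single (g i * h j) (M.val i j) := by
  obtain ⟨g, h, M, hM⟩ := h
  refine ⟨g, h, Units.map (augZ (Γ := Γ)).mapMatrix.toMonoidHom A, fun i j => ?_⟩
  have : (Units.map (augZ (Γ := Γ)).mapMatrix.toMonoidHom A).val i j = M i j := by
    change augZ (A.val i j) = M i j
    rw [hM, aug_sg]
  rw [this]
  exact hM i j

theorem TT_gau (A : (Matrix κ κ (MonoidAlgebra ℤ Γ))ˣ) (h : Gau A.val) : TT (TU Γ) A := by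
  obtain ⟨g, h, M, hM⟩ := gau_unit A h
  have h1 : A = dgs g (fun _ => 1) (fun _ => by norm_num) *
      Units.map (mpm (Int.castRingHom (MonoidAlgebra ℤ Γ))) M *
      dgs h (fun _ => 1) (fun _ => by norm_num) := by
    apply Units.ext
    ext1 i j
    rw [Units.val_mul, Units.val_mul]
    change _ = ((Matrix.diagonal (fun i => MonoidAlgebra.single (g i) (1 : ℤ)) :
      Matrix κ κ (MonoidAlgebra ℤ Γ)) *
      (Int.castRingHom (MonoidAlgebra ℤ Γ)).mapMatrix M.val *
      (Matrix.diagonal (fun i => MonoidAlgebra.single (h i) (1 : ℤ)) :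
      Matrix κ κ (MonoidAlgebra ℤ Γ))) i j
    rw [Matrix.mul_diagonal, Matrix.diagonal_mul, hM]
    change _ = MonoidAlgebra.single (g i) 1 * ((M.val i j : ℤ) : MonoidAlgebra ℤ Γ) *
      MonoidAlgebra.single (h j) 1
    rw [int_single, MonoidAlgebra.single_mul_single, MonoidAlgebra.single_mul_single]
    simp
  rw [h1]
  exact TT_mul _ _ _ (TT_mul _ _ _ (TT_of_mem _ _ (dgs_mem _ _ _)) (TT_im _))
    (TT_of_mem _ _ (dgs_mem _ _ _))

theorem nt_bar (x : MonoidAlgebra ℤ Γ) : nt (bar x) = nt x := by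
  classical
  have key : ∀ y : MonoidAlgebra ℤ Γ, nt (bar y) ≤ nt y := by
    intro y
    unfold nt
    refine (Finset.card_le_card (s := (bar y).coeff.support)
      (t := y.coeff.support.image fun h => h⁻¹) ?_).trans Finset.card_image_le
    intro w hw
    rw [Finsupp.mem_support_iff, coeff_bar] at hw
    rw [Finset.mem_image]
    exact ⟨w⁻¹, Finsupp.mem_support_iff.2 hw, inv_inv w⟩
  refine le_antisymm (key x) ?_
  have h1 : bar (bar x) = x := by
    ext w
    rw [coeff_bar, coeff_bar, inv_inv]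
  calc nt x = nt (bar (bar x)) := by rw [h1]
    _ ≤ nt (bar x) := key _

/-- columns -/
theorem gauge_col (A : (Matrix κ κ (MonoidAlgebra ℤ Γ))ˣ)
    (hA : ∀ j, ∑ i, nt (A.val i j) ≤ 2) : Gau A.val := by
  obtain ⟨g, h, M, hM⟩ := gauge _ κ rfl (adx A) (by
    intro j
    have : ∀ i, nt ((adx A).val j i) = nt (A.val i j) := fun i => nt_bar _
    simp only [this]
    exact hA j)
  refine ⟨fun i => (h i)⁻¹, fun j => (g j)⁻¹, fun i j => M j i, fun i j => ?_⟩
  have h1 : A.val i j = bar ((adx A).val j i) := by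
    change A.val i j = bar (bar (A.val i j))
    ext w
    rw [coeff_bar, coeff_bar, inv_inv]
  rw [h1, hM]
  classical
  ext w
  rw [coeff_bar, coeff_sg, coeff_sg, ← _root_.mul_inv_rev]
  by_cases hw : g j * h i = w⁻¹
  · rw [if_pos hw, if_pos (by rw [hw, inv_inv])]
  · rw [if_neg hw, if_neg]
    intro h2
    apply hw
    rw [← h2, inv_inv]

/-- equality of classes from stable triviality -/
theorem TT_bot_comm (C : (Matrix κ κ (MonoidAlgebra ℤ Γ))ˣ)
    (h : TT (⊥ : Subgroup (MonoidAlgebra ℤ Γ)ˣ) C) :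
    ∃ (μ : Type) (_ : Fintype μ) (_ : DecidableEq μ), Units.map (stm μ) C ∈
      commutator (Matrix (κ ⊕ μ) (κ ⊕ μ) (MonoidAlgebra ℤ Γ))ˣ := by
  obtain ⟨μ, i1, i2, h1⟩ := h
  exact ⟨μ, i1, i2, by rw [← HH_bot]; exact h1⟩

theorem commutator_re {μ : Type} [Fintype μ] [DecidableEq μ] (e : μ ≃ κ)
    (x : (Matrix κ κ (MonoidAlgebra ℤ Γ))ˣ) (hx : x ∈ commutator _) :
    Units.map (re e) x ∈ commutator (Matrix μ μ (MonoidAlgebra ℤ Γ))ˣ := by
  rw [← HH_bot] at hx ⊢
  exact re_mem _ e x hx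

end Pool.Agent.N508.Wh
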