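import Pool.Agent.N508.Wh.FormTwo
import Pool.Agent.R719.LF.Shp

set_option autoImplicit false
set_option linter.unusedSectionVars false

/-! Every quadratic form over a group ring is, after adding hyperbolic planes, simply isometric to one
whose symmetrisation has at most three nonzero entries in each row, all of them generators. -/

namespace Pool.Agent.N508.Wh

open Matrix TH57.Thr TH6.LF TH6.CX Pool.Agent.Y75.Th Pool.Agent.Y35.KC.TTm Pool.Agent.R719.DD
  Pool.Agent.R472.Grid Pool.Agent.R719.LF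

variable {Γ : Type} [Group Γ]

section count

variable {R : Type} [Ring R] {G : Set R} {m : ℕ} (p : Prog G m) {n : ℕ} (x y : Fin n → Fin m)
  (L : ℕ)

theorem row_out (i : Fin n) : ∃ S : Finset (ℤ × ℤ), S.card ≤ 1 ∧
    ∀ l, Cell p x y L (Sum.inl i) l → colPos x L l ∈ S := by
  refine ⟨{(2 * (L : ℤ) + 2 + (((y i : ℕ) % 2 : ℕ) : ℤ), ((y i : ℕ) : ℤ))}, by simp, ?_⟩
  intro l h
  cases h with
  | out _ v h1 h2 => simp only [colPos, Finset.mem_singleton]; rw [h2, h1]

theorem col_in (j : Fin n) : ∃ S : Finset (ℤ × ℤ), S.card ≤ 2 ∧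
    ∀ k, Cell p x y L k (Sum.inl j) → rowPos y L k ∈ S := by
  refine ⟨{(1 + (((x j : ℕ) % 2 : ℕ) : ℤ), ((x j : ℕ) : ℤ)),
      ((1 : ℤ), ((p.d 0 : ℕ) : ℤ))}, Finset.card_le_two, ?_⟩
  intro k h
  simp only [Finset.mem_insert, Finset.mem_singleton]
  cases h with
  | inV v _ h1 h2 =>
    left
    simp only [rowPos, Prod.mk.injEq]; rw [h2]; omega
  | inR v _ h1 h2 h3 h4 =>
    right
    have hnb := p.nb v.1
    unfold Nb at hnb
    rw [← h2, ← h3] at hnb
    simp only [rowPos, Prod.mk.injEq]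
    rw [← h1, ← h2]
    omega

theorem card_of_pos {α : Type} [Fintype α] (f : α → ℤ × ℤ) (hf : Function.Injective f)
    (P : α → Prop) [DecidablePred P] (S : Finset (ℤ × ℤ)) (h : ∀ a, P a → f a ∈ S) :
    (Finset.univ.filter P).card ≤ S.card := by
  apply Finset.card_le_card_of_injOn f
  · intro a ha
    rw [Finset.mem_coe, Finset.mem_filter] at ha
    exact Finset.mem_coe.2 (h a ha.2)
  · exact hf.injOn

end count

/-- the degrees of a matrix with distinguished rows and columns -/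
structure Deg {R : Type} [Zero R] {n : ℕ} {V : Type} [Fintype V]
    (B : Matrix (Fin n ⊕ V) (Fin n ⊕ V) R) : Prop where
  r1 : ∀ i, {c | B (Sum.inl i) c ≠ 0}.ncard ≤ 1
  r3 : ∀ v, {c | B (Sum.inr v) c ≠ 0}.ncard ≤ 3
  c2 : ∀ j, {r | B r (Sum.inl j) ≠ 0}.ncard ≤ 2
  c3 : ∀ v, {r | B r (Sum.inr v) ≠ 0}.ncard ≤ 3

/-- every matrix over a ring is a Schur complement of a sparse unipotent matrix -/
theorem schur_form {R : Type} [Ring R] {G : Set R} (h1 : (1 : R) ∈ G) (hneg : ∀ g ∈ G, -g ∈ G)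
    (hG : GenBy G) {n : ℕ} (A : Matrix (Fin n) (Fin n) R) :
    ∃ (V : Type) (_ : Fintype V) (_ : DecidableEq V) (D : Matrix (Fin n) V R)
      (C F : Matrix V (Fin n) R) (K : Matrix V V R) (hgt : V → ℤ) (H : ℤ),
      D * F = A ∧ K * F = C ∧ (∀ v v', (K - 1) v v' ≠ 0 → hgt v' < hgt v) ∧ (∀ v, hgt v < H) ∧
      Deg (fromBlocks 0 D (-C) K) ∧
      (∀ r c, (fromBlocks 0 D (-C) K) r c = 0 ∨ (fromBlocks 0 D (-C) K) r c ∈ G) := by
  classical
  let m := n + n + 3
  let x : Fin n → Fin m := fun j => ⟨j, by have := j.2; omega⟩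
  let y : Fin n → Fin m := fun i => ⟨n + i, by have := i.2; omega⟩
  have hx : Function.Injective x := fun i j h => Fin.ext (by
    have := congrArg Fin.val h; simpa [x] using this)
  have hy : Function.Injective y := fun i j h => Fin.ext (by
    have := congrArg Fin.val h; simpa [y] using this)
  let Z : Matrix (Fin m) (Fin m) R := fun k l =>
    if h : (n ≤ (k : ℕ) ∧ (k : ℕ) < n + n) ∧ (l : ℕ) < n then
      A ⟨(k : ℕ) - n, by omega⟩ ⟨l, h.2⟩ else 0
  have hZ : 1 + Z ∈ El (R := R) (Fin m) := by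
    apply el_unip (Finset.univ.filter fun k : Fin m => n ≤ (k : ℕ))
    intro k l h
    by_cases hh : (n ≤ (k : ℕ) ∧ (k : ℕ) < n + n) ∧ (l : ℕ) < n
    · simp only [Finset.mem_filter, Finset.mem_univ, true_and]
      omega
    · exact absurd (dif_neg hh) h
  have hZ2 : ∀ i j, (1 + Z) (y i) (x j) = A i j := by
    intro i j
    have e1 : (1 : Matrix (Fin m) (Fin m) R) (y i) (x j) = 0 := by
      apply Matrix.one_apply_ne
      intro h
      have := congrArg Fin.val h
      simp only [x, y] at this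
      have := j.2
      omega
    rw [Matrix.add_apply, e1, zero_add]
    have h : (n ≤ ((y i : Fin m) : ℕ) ∧ ((y i : Fin m) : ℕ) < n + n) ∧ ((x j : Fin m) : ℕ) < n := by
      simp only [x, y]
      have := i.2
      have := j.2
      omega
    change (if h : (n ≤ ((y i : Fin m) : ℕ) ∧ ((y i : Fin m) : ℕ) < n + n) ∧
      ((x j : Fin m) : ℕ) < n then A ⟨((y i : Fin m) : ℕ) - n, by omega⟩ ⟨(x j : Fin m), h.2⟩
      else 0) = A i j
    rw [dif_pos h]
    congr 1
    · apply Fin.ext; simp [y]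
  obtain ⟨L, p, hp⟩ := exists_prog (G := G) (by omega) (1 + Z)
    (El_le h1 hneg hG (by omega) (1 + Z) hZ)
  refine ⟨Fin (L + 1) × Fin m, inferInstance, inferInstance, Dm y L R, p.Cm x L, p.Fm x L,
    1 - p.Nm L, hgt L, 2 * (L : ℤ) + 9, ?_, NF p x L, ?_, ?_, ?_, ?_⟩
  · rw [DF]
    ext i j
    rw [Matrix.of_apply, hp, hZ2]
  · intro v v' h
    apply N_lower p L
    intro h2
    apply h
    have e1 : (1 - p.Nm L - 1 : Matrix (Fin (L + 1) × Fin m) (Fin (L + 1) × Fin m) R)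
        = -(p.Nm L) := by abel
    rw [e1, Matrix.neg_apply, h2, neg_zero]
  · intro v
    have := v.1.2
    unfold hgt
    omega
  · have hB : (fromBlocks 0 (Dm y L R) (-(p.Cm x L)) (1 - p.Nm L)) = p.B x y L := rfl
    rw [hB]
    constructor
    · intro i
      obtain ⟨S, hS, hS2⟩ := row_out p x y L i
      refine le_trans (le_trans (Set.ncard_le_ncard_of_injOn (t := (S : Set (ℤ × ℤ))) (colPos x L)
        (fun j hj => ?_) (colPos_inj x L hx).injOn (Finset.finite_toSet S)) ?_) hS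
      · exact hS2 j (cell_of_ne p x y L _ j hj)
      · rw [Set.ncard_coe_finset]
    · intro i
      obtain ⟨S, hS, hS2⟩ := row_three p x y L (Sum.inr i)
      refine le_trans (le_trans (Set.ncard_le_ncard_of_injOn (t := (S : Set (ℤ × ℤ))) (colPos x L)
        (fun j hj => ?_) (colPos_inj x L hx).injOn (Finset.finite_toSet S)) ?_) hS
      · exact hS2 j (cell_of_ne p x y L _ j hj)
      · rw [Set.ncard_coe_finset]
    · intro j
      obtain ⟨S, hS, hS2⟩ := col_in p x y L j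
      refine le_trans (le_trans (Set.ncard_le_ncard_of_injOn (t := (S : Set (ℤ × ℤ))) (rowPos y L)
        (fun i hi => ?_) (rowPos_inj y L hy).injOn (Finset.finite_toSet S)) ?_) hS
      · exact hS2 i (cell_of_ne p x y L i _ hi)
      · rw [Set.ncard_coe_finset]
    · intro j
      obtain ⟨S, hS, hS2⟩ := col_three p x y L (Sum.inr j)
      refine le_trans (le_trans (Set.ncard_le_ncard_of_injOn (t := (S : Set (ℤ × ℤ))) (rowPos y L)
        (fun i hi => ?_) (rowPos_inj y L hy).injOn (Finset.finite_toSet S)) ?_) hS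
      · exact hS2 i (cell_of_ne p x y L i _ hi)
      · rw [Set.ncard_coe_finset]
  · obtain ⟨ρ, c, _, _, _, _, hv, _, _⟩ := gridG_B p x y L h1 hneg hx hy
    exact hv

/-- the vertical matrix `(1, 0)` -/
noncomputable def Jm (Γ : Type) [Group Γ] (n : ℕ) (V : Type) : Matrix (Fin n ⊕ V) (Fin n) (MonoidAlgebra ℤ Γ) :=
  fromRows 1 0

/-- the sparse form -/
noncomputable def sform {n : ℕ} {V : Type} (B : Matrix (Fin n ⊕ V) (Fin n ⊕ V) (MonoidAlgebra ℤ Γ)) :
    Matrix (((Fin n ⊕ V) ⊕ (Fin n ⊕ V)) ⊕ Fin n) (((Fin n ⊕ V) ⊕ (Fin n ⊕ V)) ⊕ Fin n)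
      (MonoidAlgebra ℤ Γ) :=
  fromBlocks (fromBlocks 0 B 0 0) (fromRows (Jm Γ n V) (Jm Γ n V)) 0 0

/-- the stabilised form -/
noncomputable def stform {n : ℕ} {V : Type} [DecidableEq V]
    (ψ : Matrix (Fin n) (Fin n) (MonoidAlgebra ℤ Γ)) :
    Matrix (((Fin n ⊕ V) ⊕ (Fin n ⊕ V)) ⊕ Fin n) (((Fin n ⊕ V) ⊕ (Fin n ⊕ V)) ⊕ Fin n)
      (MonoidAlgebra ℤ Γ) :=
  fromBlocks (fromBlocks (fromBlocks ψ 0 0 0) (fromBlocks 0 0 0 1) 0 0) (fromRows 0 (Jm Γ n V)) 0 0

end Pool.Agent.N508.Wh
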