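import Pool.Agent.N508.Wh.FormGrid

set_option autoImplicit false
set_option linter.unusedSectionVars false

/-! The simple isometry between the stabilised form and the sparse form. -/

namespace Pool.Agent.N508.Wh

open Matrix TH57.Thr TH6.LF TH6.CX Pool.Agent.Y75.Th Pool.Agent.Y35.KC.TTm Pool.Agent.R719.DD
  Pool.Agent.R472.Grid Pool.Agent.R719.LF

variable {Γ : Type} [Group Γ]

section iso

variable {n : ℕ} {V : Type} [Fintype V] [DecidableEq V]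

/-- the change of basis -/
noncomputable def Um (ψ : Matrix (Fin n) (Fin n) (MonoidAlgebra ℤ Γ))
    (D : Matrix (Fin n) V (MonoidAlgebra ℤ Γ)) (F : Matrix V (Fin n) (MonoidAlgebra ℤ Γ))
    (K : Matrix V V (MonoidAlgebra ℤ Γ)) :
    Matrix (((Fin n ⊕ V) ⊕ (Fin n ⊕ V)) ⊕ Fin n) (((Fin n ⊕ V) ⊕ (Fin n ⊕ V)) ⊕ Fin n)
      (MonoidAlgebra ℤ Γ) :=
  fromBlocks (fromBlocks (fromBlocks 1 D 0 K) (fromBlocks 1 0 0 0) 0 (fromBlocks 1 (-adj F) 0 1))
    (fromRows (fromRows (-adj ψ) 0) 0) 0 1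

/-- the weights of the basis vectors -/
def wt (hgt : V → ℤ) (H : ℤ) : ((Fin n ⊕ V) ⊕ (Fin n ⊕ V)) ⊕ Fin n → ℤ
  | .inl (.inl (.inl _)) => -H
  | .inl (.inl (.inr v)) => -hgt v
  | .inl (.inr (.inl _)) => -H + 1
  | .inl (.inr (.inr _)) => -H + 2
  | .inr _ => -H + 1

theorem fil_Um (ψ : Matrix (Fin n) (Fin n) (MonoidAlgebra ℤ Γ))
    (D : Matrix (Fin n) V (MonoidAlgebra ℤ Γ)) (F : Matrix V (Fin n) (MonoidAlgebra ℤ Γ))
    (K : Matrix V V (MonoidAlgebra ℤ Γ)) (hgt : V → ℤ) (H : ℤ)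
    (h1 : ∀ v v', (K - 1) v v' ≠ 0 → hgt v' < hgt v) (h2 : ∀ v, hgt v < H) :
    Fil (wt (n := n) hgt H) (wt (n := n) hgt H) 1 (Um ψ D F K - 1) := by
  have e1 : Um ψ D F K - 1 = fromBlocks (fromBlocks (fromBlocks 0 D 0 (K - 1))
      (fromBlocks 1 0 0 0) 0 (fromBlocks 0 (-adj F) 0 0))
      (fromRows (fromRows (-adj ψ) 0) 0) 0 0 := by
    unfold Um
    rw [← fromBlocks_one, ← fromBlocks_one, ← fromBlocks_one, fb_sub, fb_sub, fb_sub, fb_sub]
    simp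
  rw [e1]
  rintro (((i | i) | (i | i)) | i) (((j | j) | (j | j)) | j) h <;>
    simp only [fromBlocks_apply₁₁, fromBlocks_apply₁₂, fromBlocks_apply₂₁, fromBlocks_apply₂₂,
      fromRows_apply_inl, fromRows_apply_inr, Matrix.zero_apply, ne_eq, not_true_eq_false] at h <;>
    simp only [wt]
  · have := h2 j; omega
  · omega
  · omega
  · have := h1 i j h; omega
  · omega

theorem iso_sform (ε : ℤ) (ψ : Matrix (Fin n) (Fin n) (MonoidAlgebra ℤ Γ))
    (D : Matrix (Fin n) V (MonoidAlgebra ℤ Γ)) (C F : Matrix V (Fin n) (MonoidAlgebra ℤ Γ))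
    (K : Matrix V V (MonoidAlgebra ℤ Γ)) (hgt : V → ℤ) (H : ℤ)
    (h1 : ∀ v v', (K - 1) v v' ≠ 0 → hgt v' < hgt v) (h2 : ∀ v, hgt v < H)
    (hDF : D * F = -(ε • adj ψ)) (hKF : K * F = C) :
    Iso ε (stform (V := V) ψ) (sform (fromBlocks 0 D (-C) K)) := by
  obtain ⟨x, hx⟩ := unit_of_fil (wt (n := n) hgt H) (Um ψ D F K) (fil_Um ψ D F K hgt H h1 h2)
  refine ⟨x, fromBlocks (fromBlocks 0 0 (fromBlocks (-ψ) 0 0 0) 0) 0 0 0,
    TT_of_fil _ (wt (n := n) hgt H) x (by rw [hx]; exact fil_Um ψ D F K hgt H h1 h2), ?_⟩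
  rw [hx]
  unfold Um stform sform Jm
  simp only [adj_fromBlocks, adj_fromRows, adj_fromCols, adj_zero, adj_one, adj_neg, adj_adj]
  simp only [fromBlocks_multiply, fromBlocks_mul_fromRows, fromRows_mul, mul_fromCols,
    fromRows_mul_fromCols, Matrix.mul_zero, Matrix.zero_mul, Matrix.mul_one, Matrix.one_mul,
    add_zero, zero_add, fromBlocks_smul, fb_sub, fromBlocks_add, smul_zero, sub_zero, zero_sub]
  rw [Matrix.mul_neg, Matrix.mul_neg, hDF, hKF, neg_neg, smul_neg]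
  congr 1
  ext1 i j
  rcases i with (i | i) | (i | i) <;> rcases j with (j | j) | (j | j) <;> simp [Matrix.neg_apply]

/-- the positions of the nonzero entries of the symmetrisation -/
theorem sform_deg {B : Matrix (Fin n ⊕ V) (Fin n ⊕ V) (MonoidAlgebra ℤ Γ)} (hB : Deg B)
    (r : ((Fin n ⊕ V) ⊕ (Fin n ⊕ V)) ⊕ Fin n) :
    {c | sform B r c ≠ 0 ∨ sform B c r ≠ 0}.ncard ≤ 3 := by
  classical
  rcases r with ((i | v) | (i | v)) | i
  · have h1 : {c | sform B (Sum.inl (Sum.inl (Sum.inl i))) c ≠ 0 ∨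
        sform B c (Sum.inl (Sum.inl (Sum.inl i))) ≠ 0} ⊆
        (fun c => Sum.inl (Sum.inr c)) '' {c | B (Sum.inl i) c ≠ 0} ∪ {Sum.inr i} := by
      rintro (((j | j) | (j | j)) | j) h
      all_goals simp [sform, Jm, Matrix.one_apply] at h ⊢
      · exact h
      · exact h
      · exact h.symm
    have h2 := Set.ncard_le_ncard h1 (Set.toFinite _)
    have h3 := Set.ncard_union_le ((fun c => (Sum.inl (Sum.inr c) :
      ((Fin n ⊕ V) ⊕ (Fin n ⊕ V)) ⊕ Fin n)) '' {c | B (Sum.inl i) c ≠ 0}) {Sum.inr i}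
    have h4 := Set.ncard_image_le (f := fun c => (Sum.inl (Sum.inr c) :
      ((Fin n ⊕ V) ⊕ (Fin n ⊕ V)) ⊕ Fin n)) (s := {c | B (Sum.inl i) c ≠ 0}) (Set.toFinite _)
    have h5 := hB.r1 i
    rw [Set.ncard_singleton] at h3
    omega
  · have h1 : {c | sform B (Sum.inl (Sum.inl (Sum.inr v))) c ≠ 0 ∨
        sform B c (Sum.inl (Sum.inl (Sum.inr v))) ≠ 0} ⊆
        (fun c => Sum.inl (Sum.inr c)) '' {c | B (Sum.inr v) c ≠ 0} := by
      rintro (((j | j) | (j | j)) | j) h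
      all_goals simp [sform, Jm] at h ⊢
      · exact h
      · exact h
    have h2 := Set.ncard_le_ncard h1 (Set.toFinite _)
    have h4 := Set.ncard_image_le (f := fun c => (Sum.inl (Sum.inr c) :
      ((Fin n ⊕ V) ⊕ (Fin n ⊕ V)) ⊕ Fin n)) (s := {c | B (Sum.inr v) c ≠ 0}) (Set.toFinite _)
    have h5 := hB.r3 v
    omega
  · have h1 : {c | sform B (Sum.inl (Sum.inr (Sum.inl i))) c ≠ 0 ∨
        sform B c (Sum.inl (Sum.inr (Sum.inl i))) ≠ 0} ⊆
        (fun c => Sum.inl (Sum.inl c)) '' {c | B c (Sum.inl i) ≠ 0} ∪ {Sum.inr i} := by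
      rintro (((j | j) | (j | j)) | j) h
      all_goals simp [sform, Jm, Matrix.one_apply] at h ⊢
      · exact h
      · exact h
      · exact h.symm
    have h2 := Set.ncard_le_ncard h1 (Set.toFinite _)
    have h3 := Set.ncard_union_le ((fun c => (Sum.inl (Sum.inl c) :
      ((Fin n ⊕ V) ⊕ (Fin n ⊕ V)) ⊕ Fin n)) '' {c | B c (Sum.inl i) ≠ 0}) {Sum.inr i}
    have h4 := Set.ncard_image_le (f := fun c => (Sum.inl (Sum.inl c) :
      ((Fin n ⊕ V) ⊕ (Fin n ⊕ V)) ⊕ Fin n)) (s := {c | B c (Sum.inl i) ≠ 0}) (Set.toFinite _)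
    have h5 := hB.c2 i
    rw [Set.ncard_singleton] at h3
    omega
  · have h1 : {c | sform B (Sum.inl (Sum.inr (Sum.inr v))) c ≠ 0 ∨
        sform B c (Sum.inl (Sum.inr (Sum.inr v))) ≠ 0} ⊆
        (fun c => Sum.inl (Sum.inl c)) '' {c | B c (Sum.inr v) ≠ 0} := by
      rintro (((j | j) | (j | j)) | j) h
      all_goals simp [sform, Jm] at h ⊢
      · exact h
      · exact h
    have h2 := Set.ncard_le_ncard h1 (Set.toFinite _)
    have h4 := Set.ncard_image_le (f := fun c => (Sum.inl (Sum.inl c) :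
      ((Fin n ⊕ V) ⊕ (Fin n ⊕ V)) ⊕ Fin n)) (s := {c | B c (Sum.inr v) ≠ 0}) (Set.toFinite _)
    have h5 := hB.c3 v
    omega
  · have h1 : {c | sform B (Sum.inr i) c ≠ 0 ∨ sform B c (Sum.inr i) ≠ 0} ⊆
        {Sum.inl (Sum.inl (Sum.inl i)), Sum.inl (Sum.inr (Sum.inl i))} := by
      rintro (((j | j) | (j | j)) | j) h
      all_goals simp [sform, Jm, Matrix.one_apply] at h ⊢
      · exact h
      · exact h
    have h2 := Set.ncard_le_ncard h1 (Set.toFinite _)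
    have h3 : ({Sum.inl (Sum.inl (Sum.inl i)), Sum.inl (Sum.inr (Sum.inl i))} :
      Set (((Fin n ⊕ V) ⊕ (Fin n ⊕ V)) ⊕ Fin n)).ncard ≤ 2 :=
        (Set.ncard_insert_le _ _).trans (by rw [Set.ncard_singleton])
    omega

theorem sform_anti (B : Matrix (Fin n ⊕ V) (Fin n ⊕ V) (MonoidAlgebra ℤ Γ))
    (r c : ((Fin n ⊕ V) ⊕ (Fin n ⊕ V)) ⊕ Fin n) : sform B r c = 0 ∨ sform B c r = 0 := by
  rcases r with (r | r) | r <;> rcases c with (c | c) | c <;> simp [sform]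

theorem sform_val {G : Set (MonoidAlgebra ℤ Γ)} (h1 : (1 : MonoidAlgebra ℤ Γ) ∈ G)
    {B : Matrix (Fin n ⊕ V) (Fin n ⊕ V) (MonoidAlgebra ℤ Γ)} (hB : ∀ r c, B r c = 0 ∨ B r c ∈ G)
    (r c : ((Fin n ⊕ V) ⊕ (Fin n ⊕ V)) ⊕ Fin n) : sform B r c = 0 ∨ sform B r c ∈ G := by
  have h2 : ∀ (r : Fin n ⊕ V) (c : Fin n), Jm Γ n V r c = 0 ∨ Jm Γ n V r c ∈ G := by
    rintro (r | r) c
    · by_cases h : r = c
      · right; simp [Jm, h, h1]
      · left; simp [Jm, h]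
    · left; simp [Jm]
  rcases r with (r | r) | r <;> rcases c with (c | c) | c
  all_goals first | (left; simp [sform]; done) | exact hB r c | exact h2 r c

end iso

section fin

/-- the identification of the index sets -/
def eqv (n : ℕ) (V : Type) : Fin n ⊕ ((Fin n ⊕ V) ⊕ (Fin n ⊕ V)) ≃
    ((Fin n ⊕ V) ⊕ (Fin n ⊕ V)) ⊕ Fin n where
  toFun
    | .inl i => .inl (.inl (.inl i))
    | .inr (.inl (.inl i)) => .inl (.inr (.inl i))
    | .inr (.inl (.inr v)) => .inl (.inl (.inr v))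
    | .inr (.inr (.inl i)) => .inr i
    | .inr (.inr (.inr v)) => .inl (.inr (.inr v))
  invFun
    | .inl (.inl (.inl i)) => .inl i
    | .inl (.inr (.inl i)) => .inr (.inl (.inl i))
    | .inl (.inl (.inr v)) => .inr (.inl (.inr v))
    | .inr i => .inr (.inr (.inl i))
    | .inl (.inr (.inr v)) => .inr (.inr (.inr v))
  left_inv := by rintro (i | ((i | v) | (i | v))) <;> rfl
  right_inv := by rintro (((i | v) | (i | v)) | i) <;> rfl

theorem eqv_stform {n : ℕ} {V : Type} [Fintype V] [DecidableEq V]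
    (ψ : Matrix (Fin n) (Fin n) (MonoidAlgebra ℤ Γ)) :
    (stform (V := V) ψ).submatrix (eqv n V) (eqv n V) = fromBlocks ψ 0 0 (hyp Γ (Fin n ⊕ V)) := by
  ext1 r c
  rcases r with r | ((r | r) | (r | r)) <;> rcases c with c | ((c | c) | (c | c))
  all_goals simp [eqv, stform, Jm, hyp, Matrix.one_apply]

/-- every form has a sparse model -/
theorem form_three (ε : ℤ) {G : Set (MonoidAlgebra ℤ Γ)} (h1 : (1 : MonoidAlgebra ℤ Γ) ∈ G)
    (hneg : ∀ g ∈ G, -g ∈ G) (hG : GenBy G) {n : ℕ}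
    (ψ : Matrix (Fin n) (Fin n) (MonoidAlgebra ℤ Γ)) :
    ∃ (k : ℕ) (φ : Matrix (Fin n ⊕ (Fin k ⊕ Fin k)) (Fin n ⊕ (Fin k ⊕ Fin k))
      (MonoidAlgebra ℤ Γ)),
      Iso ε (fromBlocks ψ 0 0 (hyp Γ (Fin k))) φ ∧ (∀ r c, φ r c = 0 ∨ φ r c ∈ G) ∧
      (∀ r c, φ r c = 0 ∨ φ c r = 0) ∧ ∀ r, {c | φ r c ≠ 0 ∨ φ c r ≠ 0}.ncard ≤ 3 := by
  obtain ⟨V, i1, i2, D, C, F, K, hgt, H, hDF, hKF, hK, hH, hdeg, hval⟩ :=
    schur_form h1 hneg hG (-(ε • adj ψ))
  obtain ⟨k, ⟨e0⟩⟩ : ∃ k, Nonempty (Fin k ≃ Fin n ⊕ V) := ⟨_, ⟨(Fintype.equivFin _).symm⟩⟩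
  have h2 := ((iso_sform ε ψ D C F K hgt H hK hH hDF hKF).reindex (eqv n V)).reindex
    (Equiv.sumCongr (Equiv.refl (Fin n)) (Equiv.sumCongr e0 e0))
  rw [eqv_stform] at h2
  have h3 : (fromBlocks ψ 0 0 (hyp Γ (Fin n ⊕ V))).submatrix
      (Equiv.sumCongr (Equiv.refl (Fin n)) (Equiv.sumCongr e0 e0))
      (Equiv.sumCongr (Equiv.refl (Fin n)) (Equiv.sumCongr e0 e0))
      = fromBlocks ψ 0 0 (hyp Γ (Fin k)) := by
    ext1 r c
    rcases r with r | (r | r) <;> rcases c with c | (c | c)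
    all_goals simp [hyp, Matrix.one_apply]
  rw [h3, Matrix.submatrix_submatrix] at h2
  set E : Fin n ⊕ (Fin k ⊕ Fin k) → ((Fin n ⊕ V) ⊕ (Fin n ⊕ V)) ⊕ Fin n :=
    eqv n V ∘ Equiv.sumCongr (Equiv.refl (Fin n)) (Equiv.sumCongr e0 e0) with hE
  have hinj : Function.Injective E := (eqv n V).injective.comp (Equiv.injective _)
  refine ⟨k, _, h2, fun r c => sform_val h1 hval _ _, fun r c => sform_anti _ _ _, fun r => ?_⟩
  refine le_trans (Set.ncard_le_ncard_of_injOn E (fun c hc => ?_) hinj.injOn (Set.toFinite _))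
    (sform_deg hdeg (E r))
  exact hc

end fin

end Pool.Agent.N508.Wh
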