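import Pool.Agent.N508.Wh.Cls
import Pool.Agent.R719.LF.Piv

set_option autoImplicit false
set_option linter.unusedSectionVars false

/-! Nonsingular quadratic forms over integral group rings (groups without elements of order two) with
at most two terms in each row of the symmetrisation are integral up to group elements. -/

namespace Pool.Agent.N508.Wh

open Matrix TH57.Thr TH6.LF TH6.CX Pool.Agent.Y75.Th Pool.Agent.Y35.KC.TTm Pool.Agent.R719.DD
  Pool.Agent.R472.Grid Pool.Agent.R719.LF

variable {Γ : Type} [Group Γ] {κ : Type} [Fintype κ] [DecidableEq κ]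

theorem bar_sg (g : Γ) (z : ℤ) : bar (MonoidAlgebra.single g z : MonoidAlgebra ℤ Γ)
    = MonoidAlgebra.single g⁻¹ z := by
  classical
  ext w
  rw [coeff_bar, coeff_sg, coeff_sg]
  by_cases hw : g = w⁻¹
  · rw [if_pos hw, if_pos (by rw [hw, inv_inv])]
  · rw [if_neg hw, if_neg]
    intro h
    apply hw
    rw [← h, inv_inv]

theorem sg_inj {g h : Γ} {a b : ℤ} (ha : a ≠ 0)
    (he : (MonoidAlgebra.single g a : MonoidAlgebra ℤ Γ) = MonoidAlgebra.single h b) : g = h := by
  classical
  have h1 := congrArg (fun x : MonoidAlgebra ℤ Γ => x.coeff g) he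
  simp only [coeff_sg, if_true] at h1
  by_contra hne
  rw [if_neg (Ne.symm hne)] at h1
  exact ha h1

/-- skew matrices -/
theorem skew_mat (htf : ∀ g : Γ, g * g = 1 → g = 1) {ε : ℤ} (hε : ε = 1 ∨ ε = -1)
    (ρ : Matrix κ κ (MonoidAlgebra ℤ Γ)) (hρ : ∀ i j, ρ i j + ε • bar (ρ j i) = 0) :
    ∃ (a : κ → ℤ) (χ : Matrix κ κ (MonoidAlgebra ℤ Γ)), ∀ i j,
      ρ i j = MonoidAlgebra.single 1 (if i = j then a i else 0) + (χ i j - ε • bar (χ j i)) := by
  classical
  choose a χd _ _ h3 using fun i => skew_red htf hε (ρ i i) (hρ i i)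
  refine ⟨a, fun i j => if i = j then χd i else if WellOrderingRel i j then ρ i j else 0,
    fun i j => ?_⟩
  by_cases hij : i = j
  · subst hij
    simp only [if_true]
    exact h3 i
  · rw [if_neg hij, MonoidAlgebra.single_zero, zero_add]
    change ρ i j = (if i = j then χd i else if WellOrderingRel i j then ρ i j else 0) -
      ε • bar (if j = i then χd j else if WellOrderingRel j i then ρ j i else 0)
    rw [if_neg hij, if_neg (Ne.symm hij)]
    rcases trichotomous_of WellOrderingRel i j with h | h | h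
    · have h2 : ¬ WellOrderingRel j i := fun h' => asymm h h'
      rw [if_pos h, if_neg h2]
      have : bar (0 : MonoidAlgebra ℤ Γ) = 0 := by ext w; rw [coeff_bar]; simp
      rw [this, smul_zero, sub_zero]
    · exact absurd h hij
    · have h2 : ¬ WellOrderingRel i j := fun h' => asymm h h'
      rw [if_neg h2, if_pos h, zero_sub]
      exact eq_neg_of_add_eq_zero_left (hρ i j)

/-- **Forms with at most two terms in each row.** -/
theorem form_gauge (htf : ∀ g : Γ, g * g = 1 → g = 1) {ε : ℤ} (hε : ε = 1 ∨ ε = -1)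
    (ψ : Matrix κ κ (MonoidAlgebra ℤ Γ)) (hu : IsUnit (lam ε ψ))
    (h2 : ∀ i, ∑ j, nt (lam ε ψ i j) ≤ 2) :
    ∃ (u : κ → Γ) (ψ₀ : Matrix κ κ ℤ) (χ : Matrix κ κ (MonoidAlgebra ℤ Γ)), ∀ i j,
      MonoidAlgebra.single (u i) 1 * ψ i j * MonoidAlgebra.single (u j)⁻¹ 1 =
        MonoidAlgebra.single 1 (ψ₀ i j) + (χ i j - ε • bar (χ j i)) := by
  classical
  have hεε : ε * ε = 1 := by rcases hε with rfl | rfl <;> norm_num
  obtain ⟨A, hA⟩ := hu
  obtain ⟨g, h, M, hM⟩ := gauge _ κ rfl A (by rw [hA]; exact h2)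
  rw [hA] at hM
  set k : κ → Γ := fun j => h j * g j with hk
  have hkk : ∀ i j, M i j ≠ 0 → k i * k j = 1 := by
    intro i j hij
    have h3 := lam_symm ε hεε ψ i j
    rw [hM, hM, bar_sg, MonoidAlgebra.smul_single, smul_eq_mul] at h3
    have h4 := sg_inj hij h3
    simp only [hk]
    have h5 : g i * h j * (g j * h i) = 1 := by rw [← h4]; group
    have h6 : h i * g i * (h j * g j) = h i * (g i * h j * (g j * h i)) * (h i)⁻¹ := by group
    rw [h6, h5]; group
  let u0 : κ → Γ := fun i => if WellOrderingRel (k i) (k i)⁻¹ then k i else 1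
  have hu0 : ∀ i j, M i j ≠ 0 → u0 i * k j * (u0 j)⁻¹ = 1 := by
    intro i j hij
    have h3 : k j = (k i)⁻¹ := (inv_eq_of_mul_eq_one_right (hkk i j hij)).symm
    rcases trichotomous_of WellOrderingRel (k i) (k i)⁻¹ with h4 | h4 | h4
    · have e1 : u0 i = k i := if_pos h4
      have e2 : u0 j = 1 := by
        apply if_neg
        rw [h3, inv_inv]
        exact fun h' => asymm h4 h'
      rw [e1, e2, h3]; group
    · have h5 : k i = 1 := by
        apply htf
        nth_rewrite 2 [h4]
        exact mul_inv_cancel _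
      have h6 : k j = 1 := by rw [h3, h5, inv_one]
      have hirr : ¬ WellOrderingRel (1 : Γ) (1 : Γ)⁻¹ := by
        rw [inv_one]
        exact irrefl (r := WellOrderingRel) (1 : Γ)
      have e1 : u0 i = 1 := by
        apply if_neg
        rw [h5]; exact hirr
      have e2 : u0 j = 1 := by
        apply if_neg
        rw [h6]; exact hirr
      rw [e1, e2, h6]; group
    · have e1 : u0 i = 1 := if_neg fun h' => asymm h4 h'
      have e2 : u0 j = k j := by
        apply if_pos
        rw [h3, inv_inv]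
        exact h4
      rw [e1, e2]; group
  let u : κ → Γ := fun i => u0 i * (g i)⁻¹
  let ψ' : Matrix κ κ (MonoidAlgebra ℤ Γ) := fun i j =>
    MonoidAlgebra.single (u i) 1 * ψ i j * MonoidAlgebra.single (u j)⁻¹ 1
  have hlam' : ∀ i j, ψ' i j + ε • bar (ψ' j i) = MonoidAlgebra.single 1 (M i j) := by
    intro i j
    have e1 : bar (ψ' j i) = MonoidAlgebra.single (u i) 1 * bar (ψ j i) *
        MonoidAlgebra.single (u j)⁻¹ 1 := by
      simp only [ψ']
      rw [bar_mul, bar_mul, bar_sg, bar_sg, inv_inv, mul_assoc]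
    have e2 : ψ' i j + ε • bar (ψ' j i) = MonoidAlgebra.single (u i) 1 * lam ε ψ i j *
        MonoidAlgebra.single (u j)⁻¹ 1 := by
      rw [e1, lam_apply, mul_add, add_mul, mul_smul_comm, smul_mul_assoc]
    rw [e2, hM, MonoidAlgebra.single_mul_single, MonoidAlgebra.single_mul_single, one_mul, mul_one]
    by_cases hij : M i j = 0
    · rw [hij]; simp
    · congr 1
      simp only [u]
      have h3 := hu0 i j hij
      simp only [hk] at h3
      rw [← h3]; group
  let ρ : Matrix κ κ (MonoidAlgebra ℤ Γ) := fun i j =>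
    ψ' i j - MonoidAlgebra.single 1 ((ψ' i j).coeff 1)
  have hρ : ∀ i j, ρ i j + ε • bar (ρ j i) = 0 := by
    intro i j
    have h3 := hlam' i j
    have h4 : (ψ' i j).coeff 1 + ε * (ψ' j i).coeff 1 = M i j := by
      have h5 := congrArg (fun x : MonoidAlgebra ℤ Γ => x.coeff 1) h3
      simp only [MonoidAlgebra.coeff_add, Finsupp.add_apply, coeff_zs, coeff_bar, inv_one,
        coeff_sg, if_true] at h5
      exact h5
    have h5 : bar (ρ j i) = bar (ψ' j i) - MonoidAlgebra.single 1 ((ψ' j i).coeff 1) := by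
      simp only [ρ]
      rw [sub_eq_add_neg, bar_add, sub_eq_add_neg, ← MonoidAlgebra.single_neg, bar_sg, inv_one]
    rw [h5, smul_sub, MonoidAlgebra.smul_single, smul_eq_mul]
    simp only [ρ]
    have h6 : ψ' i j - MonoidAlgebra.single 1 ((ψ' i j).coeff 1) +
        (ε • bar (ψ' j i) - MonoidAlgebra.single 1 (ε * (ψ' j i).coeff 1))
        = (ψ' i j + ε • bar (ψ' j i)) - (MonoidAlgebra.single 1 ((ψ' i j).coeff 1) +
          MonoidAlgebra.single 1 (ε * (ψ' j i).coeff 1)) := by abel
    rw [h6, h3, ← MonoidAlgebra.single_add, h4, sub_self]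
  obtain ⟨a, χ, hχ⟩ := skew_mat htf hε ρ hρ
  refine ⟨u, fun i j => (ψ' i j).coeff 1 + (if i = j then a i else 0), χ, fun i j => ?_⟩
  have h3 : ψ' i j = MonoidAlgebra.single 1 ((ψ' i j).coeff 1) + ρ i j := by
    simp only [ρ]; abel
  change ψ' i j = _
  rw [MonoidAlgebra.single_add, add_assoc, ← hχ i j]
  exact h3

end Pool.Agent.N508.Wh
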