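import Pool.Agent.N508.Wh.Two

set_option autoImplicit false
set_option linter.unusedSectionVars false

/-! The gauge theorem: an invertible matrix over an integral group ring with at most two terms in each
row is `diag(g) M diag(h)` with an integral matrix `M`. -/

namespace Pool.Agent.N508.Wh

open Matrix TH57.Thr TH6.LF TH6.CX Pool.Agent.Y75.Th Pool.Agent.Y35.KC.TTm Pool.Agent.R719.DD
  Pool.Agent.R472.Grid

section ring

variable {R : Type} [Ring R] {κ : Type} [Fintype κ] [DecidableEq κ]

/-- a two by two block at the indices `i`, `b` -/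
def bl (i b : κ) (e11 e12 e21 e22 : R) : Matrix κ κ R := fun p q =>
  if p = i then (if q = i then e11 else if q = b then e12 else 0)
  else if p = b then (if q = i then e21 else if q = b then e22 else 0)
  else if p = q then 1 else 0

theorem mul_bl (A : Matrix κ κ R) {i b : κ} (hib : i ≠ b) (e11 e12 e21 e22 : R) (k q : κ) :
    (A * bl i b e11 e12 e21 e22) k q = if q = i then A k i * e11 + A k b * e21
      else if q = b then A k i * e12 + A k b * e22 else A k q := by
  rw [Matrix.mul_apply]
  by_cases hq : q = i
  · rw [if_pos hq, Fintype.sum_eq_add i b hib]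
    · simp [bl, hq, hib.symm]
    · rintro x ⟨h1, h2⟩
      simp [bl, h1, h2, hq]
  · rw [if_neg hq]
    by_cases hq2 : q = b
    · rw [if_pos hq2, Fintype.sum_eq_add i b hib]
      · simp [bl, hq2, hib.symm]
      · rintro x ⟨h1, h2⟩
        simp [bl, h1, h2, hq2]
    · rw [if_neg hq2, Finset.sum_eq_single q]
      · simp [bl, hq, hq2]
      · intro x _ hx
        by_cases h1 : x = i
        · simp [bl, h1, hq, hq2]
        · by_cases h2 : x = b
          · simp [bl, h2, hib.symm, hq, hq2]
          · simp [bl, h1, h2, hx]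
      · simp

theorem bl_mul {i b : κ} (hib : i ≠ b) (e11 e12 e21 e22 f11 f12 f21 f22 : R) :
    bl i b e11 e12 e21 e22 * bl i b f11 f12 f21 f22 =
      bl i b (e11 * f11 + e12 * f21) (e11 * f12 + e12 * f22) (e21 * f11 + e22 * f21)
        (e21 * f12 + e22 * f22) := by
  ext1 p q
  rw [mul_bl _ hib]
  by_cases hp : p = i
  · subst hp
    by_cases hq : q = p
    · simp [bl, hq, hib.symm]
    · by_cases hq2 : q = b <;> simp [bl, hq, hq2, hib, hib.symm]
  · by_cases hp2 : p = b
    · subst hp2
      by_cases hq : q = i
      · simp [bl, hq, hib, hib.symm]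
      · by_cases hq2 : q = p <;> simp [bl, hq, hq2, hib, hib.symm]
    · by_cases hq : q = i
      · simp [bl, hq, hp, hp2, hib]
      · by_cases hq2 : q = b <;> simp [bl, hq, hq2, hp, hp2, hib, hib.symm]

theorem bl_one {i b : κ} (hib : i ≠ b) : bl i b (1 : R) 0 0 1 = 1 := by
  ext1 p q
  unfold bl
  rw [Matrix.one_apply]
  by_cases hp : p = i
  · rw [if_pos hp]
    by_cases hq : q = i
    · rw [if_pos hq, if_pos (hp.trans hq.symm)]
    · rw [if_neg hq, ite_self, if_neg]
      rintro rfl
      exact hq hp
  · rw [if_neg hp]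
    by_cases hp2 : p = b
    · rw [if_pos hp2]
      by_cases hq : q = i
      · rw [if_pos hq, if_neg]
        rintro rfl
        exact hp hq
      · rw [if_neg hq]
        by_cases hq2 : q = b
        · rw [if_pos hq2, if_pos (hp2.trans hq2.symm)]
        · rw [if_neg hq2, if_neg]
          rintro rfl
          exact hq2 hp2
    · rw [if_neg hp2]

/-- restriction to the complement of a pivot -/
theorem exists_restrict (B : (Matrix κ κ R)ˣ) (i : κ) (v : Rˣ)
    (hBi : ∀ j, B.val i j = if j = i then (v : R) else 0) :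
    ∃ C : (Matrix {k // ¬ k = i} {k // ¬ k = i} R)ˣ,
      C.val = B.val.submatrix Subtype.val Subtype.val := by
  have hBi' : ∀ j, B⁻¹.val i j = if j = i then ((v⁻¹ : Rˣ) : R) else 0 := by
    intro j
    have h3 := congrFun (congrFun B.mul_inv i) j
    rw [Matrix.mul_apply, Finset.sum_eq_single i (fun l _ hl => by
      rw [hBi l, if_neg hl, zero_mul]) (by simp), hBi i, if_pos rfl] at h3
    have h4 : B⁻¹.val i j = ((v⁻¹ : Rˣ) : R) * ((v : R) * B⁻¹.val i j) := by
      rw [← mul_assoc, Units.inv_mul, one_mul]
    rw [h4, h3, Matrix.one_apply]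
    by_cases hj : j = i
    · rw [if_pos hj, if_pos hj.symm, mul_one]
    · rw [if_neg hj, if_neg (Ne.symm hj), mul_zero]
  exact ⟨{ val := B.val.submatrix Subtype.val Subtype.val
           inv := B⁻¹.val.submatrix Subtype.val Subtype.val
           val_inv := by
            ext1 k j
            rw [Matrix.mul_apply]
            simp only [Matrix.submatrix_apply]
            have h3 := congrFun (congrFun B.mul_inv k.1) j.1
            rw [Matrix.mul_apply, ← Finset.add_sum_erase _ _ (Finset.mem_univ i), hBi' j.1,
              if_neg j.2, mul_zero, zero_add, Finset.sum_subtype (Finset.univ.erase i)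
              (p := fun k => ¬ k = i) (by simp)] at h3
            rw [h3, Matrix.one_apply, Matrix.one_apply]
            simp only [Subtype.ext_iff]
           inv_val := by
            ext1 k j
            rw [Matrix.mul_apply]
            simp only [Matrix.submatrix_apply]
            have h3 := congrFun (congrFun B.inv_mul k.1) j.1
            rw [Matrix.mul_apply, ← Finset.add_sum_erase _ _ (Finset.mem_univ i), hBi j.1,
              if_neg j.2, mul_zero, zero_add, Finset.sum_subtype (Finset.univ.erase i)
              (p := fun k => ¬ k = i) (by simp)] at h3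
            rw [h3, Matrix.one_apply, Matrix.one_apply]
            simp only [Subtype.ext_iff] }, rfl⟩

end ring

variable {Γ : Type} [Group Γ]

/-- `A = diag(g) M diag(h)` -/
def Gau {κ : Type} (A : Matrix κ κ (MonoidAlgebra ℤ Γ)) : Prop :=
  ∃ (g h : κ → Γ) (M : κ → κ → ℤ), ∀ i j, A i j = MonoidAlgebra.single (g i * h j) (M i j)

theorem coeff_sg (g : Γ) (z : ℤ) (w : Γ) [Decidable (g = w)] :
    (MonoidAlgebra.single g z : MonoidAlgebra ℤ Γ).coeff w = if g = w then z else 0 := by
  rw [MonoidAlgebra.coeff_single, Finsupp.single_apply]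

/-- an element supported at one point -/
theorem eq_sg (x : MonoidAlgebra ℤ Γ) (p : Γ) (h : ∀ w, w ≠ p → x.coeff w = 0) :
    x = MonoidAlgebra.single p (x.coeff p) := by
  classical
  ext w
  rw [coeff_sg]
  split_ifs with hw
  · rw [hw]
  · exact h w (Ne.symm hw)

theorem nt_pos_of_coeff {x : MonoidAlgebra ℤ Γ} {w : Γ} (h : x.coeff w ≠ 0) : 1 ≤ nt x :=
  Finset.card_pos.2 ⟨w, Finsupp.mem_support_iff.2 h⟩

theorem coeff_of_nt_one {x : MonoidAlgebra ℤ Γ} {w v : Γ} (h : x.coeff w ≠ 0) (h1 : nt x ≤ 1)
    (hv : v ≠ w) : x.coeff v = 0 := by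
  by_contra h2
  have := Finset.card_le_one.1 h1 v (Finsupp.mem_support_iff.2 h2) w (Finsupp.mem_support_iff.2 h)
  exact hv this

/-- the step with a row with entries in the columns `i` and `b` -/
theorem step {κ : Type} [Fintype κ] [DecidableEq κ]
    (ih : ∀ i : κ, ∀ C : (Matrix {k // ¬ k = i} {k // ¬ k = i} (MonoidAlgebra ℤ Γ))ˣ,
      (∀ k, ∑ j, nt (C.val k j) ≤ 2) → Gau C.val)
    (A : (Matrix κ κ (MonoidAlgebra ℤ Γ))ˣ) (hA : ∀ k, ∑ j, nt (A.val k j) ≤ 2) (i b : κ)
    (hib : i ≠ b) (hi : A.val i i ≠ 0) (hb : A.val i b ≠ 0) : Gau A.val := by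
  classical
  -- the row `i`
  have hsub : ∀ k, nt (A.val k i) + (nt (A.val k b) + ∑ j ∈ (Finset.univ.erase i).erase b,
      nt (A.val k j)) ≤ 2 := by
    intro k
    have h1 := hA k
    rw [← Finset.add_sum_erase Finset.univ _ (Finset.mem_univ i),
      ← Finset.add_sum_erase (Finset.univ.erase i) _
        (Finset.mem_erase.2 ⟨hib.symm, Finset.mem_univ _⟩)] at h1
    exact h1
  have hzero : ∀ k, nt (A.val k i) + nt (A.val k b) = 2 → ∀ j, j ≠ i → j ≠ b →
      A.val k j = 0 := by
    intro k hk j hj1 hj2
    have h1 := hsub k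
    have h2 : ∑ j ∈ (Finset.univ.erase i).erase b, nt (A.val k j) = 0 := by omega
    rw [Finset.sum_eq_zero_iff] at h2
    exact (nt_zero_iff _).1 (h2 j (Finset.mem_erase.2 ⟨hj2, Finset.mem_erase.2
      ⟨hj1, Finset.mem_univ _⟩⟩))
  have hn1 : nt (A.val i i) ≠ 0 := fun h => hi ((nt_zero_iff _).1 h)
  have hn2 : nt (A.val i b) ≠ 0 := fun h => hb ((nt_zero_iff _).1 h)
  have hn := hsub i
  obtain ⟨s, c, hc, hs⟩ := nt_one (x := A.val i i) (by omega)
  obtain ⟨t, d, hd, ht⟩ := nt_one (x := A.val i b) (by omega)
  have hrow := hzero i (by omega)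
  -- coprimality
  have hcop : ∃ α β : ℤ, α * c + β * d = 1 := by
    have h1 := congrFun (congrFun A.mul_inv i) i
    rw [Matrix.mul_apply, Matrix.one_apply_eq, Fintype.sum_eq_add i b hib (fun x hx => by
      rw [hrow x hx.1 hx.2, zero_mul]), hs, ht] at h1
    have h2 := congrArg augZ h1
    rw [map_add, map_mul, map_mul, map_one, aug_sg, aug_sg] at h2
    exact ⟨augZ (A⁻¹.val i i), augZ (A⁻¹.val b i), by rw [← h2]; ring⟩
  obtain ⟨α, β, hαβ⟩ := hcop
  set u := t⁻¹ * s with hu
  -- the column operation
  let E : (Matrix κ κ (MonoidAlgebra ℤ Γ))ˣ :=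
    { val := bl i b (MonoidAlgebra.single 1 α) (MonoidAlgebra.single 1 (-d))
        (MonoidAlgebra.single u β) (MonoidAlgebra.single u c)
      inv := bl i b (MonoidAlgebra.single 1 c) (MonoidAlgebra.single u⁻¹ d)
        (MonoidAlgebra.single 1 (-β)) (MonoidAlgebra.single u⁻¹ α)
      val_inv := by
        rw [bl_mul hib, ← bl_one hib]
        simp only [MonoidAlgebra.single_mul_single, one_mul, mul_one, mul_inv_cancel,
          ← MonoidAlgebra.single_add]
        rw [show α * c + -d * -β = 1 by rw [← hαβ]; ring, show α * d + -d * α = 0 by ring,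
          show β * c + c * -β = 0 by ring, show β * d + c * α = 1 by rw [← hαβ]; ring]
        simp [MonoidAlgebra.one_def]
      inv_val := by
        rw [bl_mul hib, ← bl_one hib]
        simp only [MonoidAlgebra.single_mul_single, one_mul, mul_one, inv_mul_cancel,
          ← MonoidAlgebra.single_add]
        rw [show c * α + d * β = 1 by rw [← hαβ]; ring, show c * -d + d * c = 0 by ring,
          show -β * α + α * β = 0 by ring, show -β * -d + α * c = 1 by rw [← hαβ]; ring]
        simp [MonoidAlgebra.one_def] }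
  have hB : ∀ k q, (A * E).val k q = if q = i then A.val k i * MonoidAlgebra.single 1 α +
      A.val k b * MonoidAlgebra.single u β else if q = b then
      A.val k i * MonoidAlgebra.single 1 (-d) + A.val k b * MonoidAlgebra.single u c
      else A.val k q := fun k q => mul_bl _ hib _ _ _ _ k q
  have hBi : ∀ j, (A * E).val i j = if j = i then ((sgu s 1 (by norm_num) :
      (MonoidAlgebra ℤ Γ)ˣ) : MonoidAlgebra ℤ Γ) else 0 := by
    intro j
    rw [hB]
    by_cases hj : j = i
    · rw [if_pos hj, if_pos hj, hs, ht]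
      simp only [MonoidAlgebra.single_mul_single, mul_one, hu, mul_inv_cancel_left,
        ← MonoidAlgebra.single_add]
      change _ = MonoidAlgebra.single s 1
      congr 1
      rw [← hαβ]; ring
    · rw [if_neg hj, if_neg hj]
      by_cases hj2 : j = b
      · rw [if_pos hj2, hs, ht]
        simp only [MonoidAlgebra.single_mul_single, mul_one, hu, mul_inv_cancel_left,
          ← MonoidAlgebra.single_add]
        rw [show c * -d + d * c = 0 by ring]
        simp
      · rw [if_neg hj2]; exact hrow j hj hj2
  obtain ⟨C, hC⟩ := exists_restrict (A * E) i _ hBi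
  have hbi : ¬ b = i := hib.symm
  have hCb : ∀ k : {k // ¬ k = i}, C.val k ⟨b, hbi⟩ =
      A.val k i * MonoidAlgebra.single 1 (-d) + A.val k b * MonoidAlgebra.single u c := by
    intro k
    rw [hC, Matrix.submatrix_apply, hB, if_neg hbi, if_pos rfl]
  have hCj : ∀ k j : {k // ¬ k = i}, j.1 ≠ b → C.val k j = A.val k j := by
    intro k j hj
    rw [hC, Matrix.submatrix_apply, hB, if_neg j.2, if_neg hj]
  have hCA : ∀ k, ∑ j, nt (C.val k j) ≤ 2 := by
    intro k
    rw [← Finset.add_sum_erase Finset.univ _ (Finset.mem_univ (⟨b, hbi⟩ : {k // ¬ k = i})), hCb]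
    have h1 : ∑ j ∈ Finset.univ.erase (⟨b, hbi⟩ : {k // ¬ k = i}), nt (C.val k j)
        = ∑ j ∈ (Finset.univ.erase i).erase b, nt (A.val k j) := by
      refine Finset.sum_bij (fun j _ => j.1) ?_ ?_ ?_ ?_
      · intro j hj
        rw [Finset.mem_erase] at hj
        exact Finset.mem_erase.2 ⟨fun h => hj.1 (Subtype.ext h),
          Finset.mem_erase.2 ⟨j.2, Finset.mem_univ _⟩⟩
      · intro a _ b _ h
        exact Subtype.ext h
      · intro j hj
        rw [Finset.mem_erase, Finset.mem_erase] at hj
        exact ⟨⟨j, hj.2.1⟩, Finset.mem_erase.2 ⟨fun h => hj.1 (congrArg Subtype.val h),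
          Finset.mem_univ _⟩, rfl⟩
      · intro j hj
        rw [Finset.mem_erase] at hj
        rw [hCj k j fun h => hj.1 (Subtype.ext h)]
    rw [h1]
    have h2 := nt_add (A.val k i * MonoidAlgebra.single 1 (-d))
      (A.val k b * MonoidAlgebra.single u c)
    have h3 := nt_mul_single (A.val k i) 1 (-d)
    have h4 := nt_mul_single (A.val k b) u c
    have h5 := hsub k.1
    omega
  obtain ⟨g, h, M, hM⟩ := ih i C hCA
  set hb' := h ⟨b, hbi⟩ with hhb
  -- the entries in the columns `i` and `b`
  have hXY : ∀ k : {k // ¬ k = i}, (∀ w, w ≠ g k * hb' → (A.val k i).coeff w = 0) ∧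
      ∀ w, w ≠ g k * hb' → (A.val k b * MonoidAlgebra.single u 1).coeff w = 0 := by
    intro k
    set X := A.val k i with hX
    set Y := A.val k b * MonoidAlgebra.single u (1 : ℤ) with hY
    have hrel : ∀ w, (C.val k ⟨b, hbi⟩).coeff w = -d * X.coeff w + c * Y.coeff w := by
      intro w
      rw [hCb, MonoidAlgebra.coeff_add, Finsupp.add_apply, coeff_mul_single, coeff_mul_single, hY,
        coeff_mul_single, inv_one, mul_one, mul_one, hX]
      ring
    have hnY : nt Y ≤ nt (A.val k b) := nt_mul_single _ _ _
    have main : ∀ w, w ≠ g k * hb' → X.coeff w = 0 ∧ Y.coeff w = 0 := by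
      intro w hw
      by_contra hcon
      have h0 : -d * X.coeff w + c * Y.coeff w = 0 := by
        rw [← hrel, hM, coeff_sg, if_neg (Ne.symm hw)]
      have hXw : X.coeff w ≠ 0 := by
        intro h1
        apply hcon
        refine ⟨h1, ?_⟩
        rw [h1, mul_zero, zero_add] at h0
        exact (mul_eq_zero.1 h0).resolve_left hc
      have hYw : Y.coeff w ≠ 0 := by
        intro h1
        rw [h1, mul_zero, add_zero] at h0
        rcases mul_eq_zero.1 h0 with h2 | h2
        · exact hd (neg_eq_zero.1 h2)
        · exact hXw h2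
      have h1 := nt_pos_of_coeff hXw
      have h2 := nt_pos_of_coeff hYw
      have h3 := hsub k.1
      rw [← hX] at h3
      have h4 : nt X ≤ 1 := by omega
      have h5 : nt Y ≤ 1 := by omega
      have h6 := hzero k.1 (by rw [← hX]; omega)
      -- the row `k` of `C` vanishes
      have h7 : ∀ j, C.val k j = 0 := by
        intro j
        by_cases hj : j.1 = b
        · have hj' : j = ⟨b, hbi⟩ := Subtype.ext hj
          rw [hj']
          ext v
          rw [hrel]
          by_cases hv : v = w
          · rw [hv, h0]; rfl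
          · rw [coeff_of_nt_one hXw h4 hv, coeff_of_nt_one hYw h5 hv]; simp
        · rw [hCj k j hj]
          exact h6 j.1 j.2 hj
      have h8 := congrFun (congrFun C.mul_inv k) k
      rw [Matrix.mul_apply, Matrix.one_apply_eq, Finset.sum_eq_zero fun j _ => by
        rw [h7 j, zero_mul]] at h8
      exact zero_ne_one h8
    exact ⟨fun w hw => (main w hw).1, fun w hw => (main w hw).2⟩
  -- the gauge
  let g' : κ → Γ := fun k => if hk : k = i then s * hb'⁻¹ else g ⟨k, hk⟩
  let h' : κ → Γ := fun j => if hj : j = i then hb' else if j = b then hb' * u⁻¹ else h ⟨j, hj⟩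
  refine ⟨g', h', fun k j => (A.val k j).coeff (g' k * h' j), fun k j => ?_⟩
  apply eq_sg
  intro w hw
  by_cases hk : k = i
  · subst hk
    have hg' : g' k = s * hb'⁻¹ := dif_pos rfl
    by_cases hj : j = k
    · subst hj
      have hh' : h' j = hb' := dif_pos rfl
      rw [hs, coeff_sg, if_neg]
      rw [hg', hh'] at hw
      intro h1; apply hw; rw [← h1]; group
    · by_cases hj2 : j = b
      · subst hj2
        have hh' : h' j = hb' * u⁻¹ := (dif_neg hj).trans (if_pos rfl)
        rw [ht, coeff_sg, if_neg]
        rw [hg', hh'] at hw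
        intro h1; apply hw; rw [← h1, hu]; group
      · rw [hrow j hj hj2]; rfl
  · have hg' : g' k = g ⟨k, hk⟩ := dif_neg hk
    by_cases hj : j = i
    · have hh' : h' j = hb' := dif_pos hj
      rw [hj]
      apply (hXY ⟨k, hk⟩).1
      rw [← hg', ← hh']
      exact hw
    · by_cases hj2 : j = b
      · have hh' : h' j = hb' * u⁻¹ := (dif_neg hj).trans (if_pos hj2)
        have h1 := (hXY ⟨k, hk⟩).2 (w * u) (by
          intro h2
          apply hw
          rw [hg', hh', ← mul_assoc, ← h2]
          group)
        rw [coeff_mul_single, mul_inv_cancel_right, mul_one] at h1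
        rw [hj2]; exact h1
      · have hh' : h' j = h ⟨j, hj⟩ := (dif_neg hj).trans (if_neg hj2)
        have h1 := hCj ⟨k, hk⟩ ⟨j, hj⟩ hj2
        have h2 := hM ⟨k, hk⟩ ⟨j, hj⟩
        have h3 : A.val k j = _ := h1.symm.trans h2
        rw [h3, coeff_sg, if_neg]
        rw [hg', hh'] at hw
        exact Ne.symm hw

theorem gauge : ∀ (n : ℕ) (κ : Type) [Fintype κ] [DecidableEq κ], Fintype.card κ = n →
    ∀ A : (Matrix κ κ (MonoidAlgebra ℤ Γ))ˣ, (∀ k, ∑ j, nt (A.val k j) ≤ 2) → Gau A.val := by
  intro n
  induction n with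
  | zero =>
    intro κ _ _ hκ A _
    have := Fintype.card_eq_zero_iff.1 hκ
    exact ⟨fun i => isEmptyElim i, fun i => isEmptyElim i, fun i => isEmptyElim i,
      fun i => isEmptyElim i⟩
  | succ n ih =>
    intro κ _ _ hκ A hA
    classical
    by_cases hex : ∃ k a b, a ≠ b ∧ A.val k a ≠ 0 ∧ A.val k b ≠ 0
    · obtain ⟨k, a, b, hab, ha, hb⟩ := hex
      -- bring the column `a` to the place `k`
      let σ : κ ≃ κ := Equiv.swap k a
      let A' : (Matrix κ κ (MonoidAlgebra ℤ Γ))ˣ :=
        { val := A.val.submatrix id σ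
          inv := A⁻¹.val.submatrix σ id
          val_inv := by
            rw [Matrix.submatrix_mul_equiv, A.mul_inv, Matrix.submatrix_id_id]
          inv_val := by
            have := Matrix.submatrix_mul_equiv A⁻¹.val A.val σ (Equiv.refl κ) σ
            simp only [Equiv.coe_refl] at this
            rw [this, A.inv_mul, Matrix.submatrix_one_equiv] }
      have hA' : ∀ p q, A'.val p q = A.val p (σ q) := fun p q => rfl
      have h1 : Gau A'.val := by
        refine step (fun i C hC => ih {k // ¬ k = i} (by
          rw [Fintype.card_subtype_compl, hκ, Fintype.card_subtype_eq]; rfl) C hC) A' ?_ k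
          (σ b) ?_ ?_ ?_
        · intro p
          simp only [hA']
          rw [Equiv.sum_comp σ fun q => nt (A.val p q)]
          exact hA p
        · intro h2
          apply hab
          have h3 := congrArg σ h2
          simp only [σ, Equiv.swap_apply_left, Equiv.swap_apply_self] at h3
          exact h3
        · rw [hA']
          simpa [σ] using ha
        · rw [hA']
          simpa [σ] using hb
      obtain ⟨g, h, M, hM⟩ := h1
      refine ⟨g, fun j => h (σ j), fun i j => M i (σ j), fun i j => ?_⟩
      rw [← hM, hA']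
      simp [σ]
    · push Not at hex
      have hnz : ∀ k, ∃ a, A.val k a ≠ 0 := by
        intro k
        by_contra h1
        push Not at h1
        have h8 := congrFun (congrFun A.mul_inv k) k
        rw [Matrix.mul_apply, Matrix.one_apply_eq, Finset.sum_eq_zero fun j _ => by
          rw [h1 j, zero_mul]] at h8
        exact zero_ne_one h8
      choose f hf using hnz
      have hz : ∀ k j, j ≠ f k → A.val k j = 0 := by
        intro k j hj
        exact hex k (f k) j (Ne.symm hj) (hf k)
      have hu : ∀ k, ∃ (g : Γ) (e : ℤ), e * e = 1 ∧ A.val k (f k) = MonoidAlgebra.single g e := by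
        intro k
        have h8 := congrFun (congrFun A.mul_inv k) k
        rw [Matrix.mul_apply, Matrix.one_apply_eq, Finset.sum_eq_single (f k) (fun j _ hj => by
          rw [hz k j hj, zero_mul]) (by simp)] at h8
        exact unit_two h8 ((Finset.single_le_sum (f := fun j => nt (A.val k j))
          (fun _ _ => Nat.zero_le _) (Finset.mem_univ (f k))).trans (hA k))
      choose g e _ hg using hu
      refine ⟨g, fun _ => 1, fun k j => if j = f k then e k else 0, fun k j => ?_⟩
      change A.val k j = MonoidAlgebra.single (g k * 1) (if j = f k then e k else 0)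
      by_cases hj : j = f k
      · rw [if_pos hj, mul_one, hj]; exact hg k
      · rw [if_neg hj, hz k j hj]; simp

end Pool.Agent.N508.Wh
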