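import Pool.Agent.R472.GridTwo

set_option autoImplicit false
set_option linter.unusedSectionVars false

/-! Invertible matrices over integral group rings with at most two terms in each row are
products `diag(g) M diag(h)` with an integral matrix `M`. -/

namespace Pool.Agent.N508.Wh

open Matrix TH57.Thr TH6.LF TH6.CX Pool.Agent.Y75.Th Pool.Agent.Y35.KC.TTm Pool.Agent.R719.DD
  Pool.Agent.R472.Grid

variable {Γ : Type} [Group Γ]

/-- number of terms -/
def nt (x : MonoidAlgebra ℤ Γ) : ℕ := x.coeff.support.card

theorem nt_zero_iff (x : MonoidAlgebra ℤ Γ) : nt x = 0 ↔ x = 0 := by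
  unfold nt
  rw [Finset.card_eq_zero, Finsupp.support_eq_empty]
  constructor
  · intro h; ext g; rw [h]; rfl
  · rintro rfl; rfl

theorem nt_add (x y : MonoidAlgebra ℤ Γ) : nt (x + y) ≤ nt x + nt y := by
  classical
  unfold nt
  refine (Finset.card_le_card (s := (x + y).coeff.support)
    (t := x.coeff.support ∪ y.coeff.support) ?_).trans (Finset.card_union_le _ _)
  intro g hg
  rw [Finsupp.mem_support_iff] at hg
  rw [Finset.mem_union, Finsupp.mem_support_iff, Finsupp.mem_support_iff]
  by_contra h
  push Not at h
  apply hg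
  simp [h.1, h.2]

theorem coeff_mul_single (x : MonoidAlgebra ℤ Γ) (g : Γ) (z : ℤ) (w : Γ) :
    (x * MonoidAlgebra.single g z).coeff w = x.coeff (w * g⁻¹) * z := by
  rw [MonoidAlgebra.coeff_mul_single_apply]

theorem nt_mul_single (x : MonoidAlgebra ℤ Γ) (g : Γ) (z : ℤ) :
    nt (x * MonoidAlgebra.single g z) ≤ nt x := by
  classical
  unfold nt
  refine (Finset.card_le_card (s := (x * MonoidAlgebra.single g z).coeff.support)
    (t := x.coeff.support.image fun h => h * g) ?_).trans Finset.card_image_le
  intro w hw
  rw [Finsupp.mem_support_iff, coeff_mul_single] at hw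
  rw [Finset.mem_image]
  exact ⟨w * g⁻¹, Finsupp.mem_support_iff.2 (left_ne_zero_of_mul hw), by group⟩

theorem nt_one {x : MonoidAlgebra ℤ Γ} (h : nt x = 1) :
    ∃ (g : Γ) (c : ℤ), c ≠ 0 ∧ x = MonoidAlgebra.single g c := by
  classical
  obtain ⟨g, hg⟩ := Finset.card_eq_one.1 h
  refine ⟨g, x.coeff g, Finsupp.mem_support_iff.1 (by rw [hg]; simp), ?_⟩
  ext w
  rw [MonoidAlgebra.coeff_single, Finsupp.single_apply]
  split_ifs with hw
  · rw [hw]
  · apply Finsupp.notMem_support_iff.1
    rw [hg, Finset.mem_singleton]
    exact fun h => hw h.symm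

theorem nt_two {x : MonoidAlgebra ℤ Γ} (h : nt x = 2) :
    ∃ (g h : Γ) (c d : ℤ), g ≠ h ∧ c ≠ 0 ∧ d ≠ 0 ∧
      x = MonoidAlgebra.single g c + MonoidAlgebra.single h d := by
  classical
  obtain ⟨g, h, hne, hg⟩ := Finset.card_eq_two.1 h
  refine ⟨g, h, x.coeff g, x.coeff h, hne, Finsupp.mem_support_iff.1 (by rw [hg]; simp),
    Finsupp.mem_support_iff.1 (by rw [hg]; simp), ?_⟩
  ext w
  rw [MonoidAlgebra.coeff_add, Finsupp.add_apply, MonoidAlgebra.coeff_single,
    MonoidAlgebra.coeff_single, Finsupp.single_apply, Finsupp.single_apply]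
  by_cases h1 : g = w
  · subst h1
    rw [if_pos rfl, if_neg hne.symm, add_zero]
  · rw [if_neg h1, zero_add]
    by_cases h2 : h = w
    · rw [if_pos h2, h2]
    · rw [if_neg h2]
      apply Finsupp.notMem_support_iff.1
      rw [hg, Finset.mem_insert, Finset.mem_singleton]
      rintro (h3 | h3)
      · exact h1 h3.symm
      · exact h2 h3.symm

theorem aug_sg (g : Γ) (z : ℤ) : augZ (MonoidAlgebra.single g z : MonoidAlgebra ℤ Γ) = z := by
  change MonoidAlgebra.lift ℤ ℤ Γ (1 : Γ →* ℤ) _ = _
  rw [MonoidAlgebra.lift_single]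
  simp

/-- right invertible elements with at most two terms are trivial units -/
theorem unit_two {x y : MonoidAlgebra ℤ Γ} (hxy : x * y = 1) (hx : nt x ≤ 2) :
    ∃ (g : Γ) (e : ℤ), e * e = 1 ∧ x = MonoidAlgebra.single g e := by
  classical
  have haug : augZ x * augZ y = 1 := by rw [← map_mul, hxy, map_one]
  have hone : nt x = 1 → ∃ (g : Γ) (e : ℤ), e * e = 1 ∧ x = MonoidAlgebra.single g e := by
    intro h
    obtain ⟨g, c, _, hc⟩ := nt_one h
    refine ⟨g, c, ?_, hc⟩
    rw [hc, aug_sg] at haug
    rcases Int.eq_one_or_neg_one_of_mul_eq_one haug with h | h <;> rw [h] <;> norm_num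
  have h012 : nt x = 0 ∨ nt x = 1 ∨ nt x = 2 := by omega
  rcases h012 with h | h | h
  · rw [nt_zero_iff] at h
    rw [h, map_zero, zero_mul] at haug
    exact absurd haug (by norm_num)
  · exact hone h
  · exfalso
    -- the norm of `y`
    have key : ∀ (g h : Γ) (c d : ℤ), |d| < |c| →
        x = MonoidAlgebra.single g c + MonoidAlgebra.single h d → False := by
      intro g h' c d hcd hx'
      have h1 : MonoidAlgebra.single g c * y = 1 + -(MonoidAlgebra.single h' d * y) := by
        rw [← hxy, hx', add_mul]; abel
      have h2 : c.natAbs * l1 y ≤ 1 + d.natAbs * l1 y := by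
        have e1 : l1 (MonoidAlgebra.single g c * y) = c.natAbs * l1 y := by
          unfold l1
          have hc : c ≠ 0 := by
            rintro rfl
            exact absurd hcd (by simp)
          have hs : (MonoidAlgebra.single g c * y).coeff.support
              = y.coeff.support.map (Equiv.mulLeft g).toEmbedding := by
            ext w
            rw [Finsupp.mem_support_iff, MonoidAlgebra.coeff_single_mul_apply, Finset.mem_map]
            constructor
            · intro hw
              exact ⟨g⁻¹ * w, Finsupp.mem_support_iff.2 (right_ne_zero_of_mul hw), by simp⟩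
            · rintro ⟨v, hv, rfl⟩
              rw [Finsupp.mem_support_iff] at hv
              simpa using ⟨hc, hv⟩
          rw [hs, Finset.sum_map, Finset.mul_sum]
          refine Finset.sum_congr rfl fun v _ => ?_
          rw [MonoidAlgebra.coeff_single_mul_apply, Int.natAbs_mul]
          simp
        rw [← e1, h1]
        refine (l1_add_le _ _).trans ?_
        rw [l1_neg, l1_one]
        exact Nat.add_le_add_left (l1_single_mul _ _ _) _
      have h3 : d.natAbs + 1 ≤ c.natAbs := by
        have := Int.natAbs_lt_natAbs_of_nonneg_of_lt (abs_nonneg d) hcd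
        rw [Int.natAbs_abs, Int.natAbs_abs] at this
        exact this
      have h4 : l1 y ≤ 1 := by
        have := Nat.mul_le_mul_right (l1 y) h3
        rw [add_mul, one_mul] at this
        omega
      have h5 : l1 y ≠ 0 := by
        intro h6
        rw [l1_zero_iff] at h6
        rw [h6, mul_zero] at hxy
        exact zero_ne_one hxy
      have h6 : l1 y = 1 := by omega
      have h7 : nt y = 1 := by
        have e1 : nt y ≤ l1 y := by
          unfold nt l1
          rw [Finset.card_eq_sum_ones]
          refine Finset.sum_le_sum fun w hw => ?_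
          have := Finsupp.mem_support_iff.1 hw
          omega
        have e2 : nt y ≠ 0 := by
          intro h; rw [nt_zero_iff] at h
          exact h5 ((l1_zero_iff _).2 h)
        omega
      obtain ⟨w, z, hz, hy⟩ := nt_one h7
      have h8 : nt (x * MonoidAlgebra.single w z * MonoidAlgebra.single w⁻¹ 1) ≤ 1 := by
        rw [← hy, hxy, one_mul]
        unfold nt
        rw [MonoidAlgebra.coeff_single]
        exact (Finset.card_le_card Finsupp.support_single_subset).trans (by simp)
      rw [mul_assoc, MonoidAlgebra.single_mul_single, mul_inv_cancel, mul_one] at h8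
      have h9 : nt (x * MonoidAlgebra.single 1 z) = nt x := by
        unfold nt
        congr 1
        ext v
        rw [Finsupp.mem_support_iff, Finsupp.mem_support_iff, coeff_mul_single]
        simp [hz]
      rw [h9, h] at h8
      omega
    obtain ⟨g, h', c, d, hne, hc, hd, hx'⟩ := nt_two h
    rcases lt_trichotomy |d| |c| with h1 | h1 | h1
    · exact key g h' c d h1 hx'
    · have h2 : augZ x = c + d := by rw [hx', map_add, aug_sg, aug_sg]
      have h3 : (2 : ℤ) ∣ c + d := by
        rcases abs_eq_abs.1 h1 with h4 | h4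
        · rw [h4]; exact ⟨c, by ring⟩
        · rw [h4]; simp
      rw [h2] at haug
      obtain ⟨k, hk⟩ := h3
      rw [hk] at haug
      have : (2 : ℤ) ∣ 1 := ⟨k * augZ y, by rw [← haug]; ring⟩
      exact absurd this (by decide)
    · exact key h' g d c h1 (by rw [hx', add_comm])

end Pool.Agent.N508.Wh
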